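import Pool.Agent.H48.TC.QBb

/-!
# Module QB of the board thc_modules: the mean square over the residue classes modulo `l g`
-/

set_option autoImplicit false

open NumberField NumberField.InfinitePlace NumberField.Units
  NumberField.Units.dirichletUnitTheorem MeasureTheory Set Filter Complex
open scoped nonZeroDivisors ENNReal

namespace Pool.Agent.H48.TC

open Pool.Agent.H25.HK Pool.Agent.H28.RC Pool.Agent.H23.LB Pool.Agent.H29.TC

section nf

variable {K : Type} [Field K] [NumberField K]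

omit [NumberField K] in
lemma f1_top {g k : Ideal (𝓞 K)} (hk : k ≠ ⊤) : g * k ^ 2 ≠ ⊤ := by
  intro h
  apply hk
  rw [eq_top_iff, ← h]
  exact Ideal.mul_le_right.trans (Ideal.pow_le_self two_ne_zero)

omit [NumberField K] in
lemma cq_norm (f : Ideal (𝓞 K)) (η : 𝓞 K ⧸ f → ℂ) (hη : MC η) (M : FI K) (x₀ x : K) :
    ‖cq f η M x₀ x‖ ≤ 1 := by
  unfold cq
  split_ifs
  · exact hη.norm_le _
  · simp

lemma cq_zero (hCQ : T_CQ) {f : Ideal (𝓞 K)} {η : 𝓞 K ⧸ f → ℂ} (hη : MC η) {M : FI K} {x₀ : K}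
    (hf : f ≠ ⊥) (hf' : f ≠ ⊤) (hM : M ≠ 0) (hG : Gn f M x₀) : cq f η M x₀ 0 = 0 := by
  have h1 := (hCQ K f η M x₀ hf hM hG).1 0 0 (by simp [FractionalIdeal.zero_mem])
  rw [h1, map_zero]
  have : Nontrivial (𝓞 K ⧸ f) := Ideal.Quotient.nontrivial_iff.2 hf'
  exact hη.zero 0 not_isUnit_zero

omit [NumberField K] in
/-- the coefficients of the cosets -/
lemma ci_sum {f : Ideal (𝓞 K)} {M : FI K} {X : Finset K} (hX : Rep K f M X) {x x' : K}
    (hx' : x' ∈ M) : ∑ r ∈ X, ci K f M r x * (starRingEnd ℂ) (ci K f M r x') =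
      ci K f M 0 (x - x') := by
  classical
  obtain ⟨r₀, ⟨h1, h2⟩, h3⟩ := hX.2 x' hx'
  have e1 : ∀ r, ci K f M r x' = if x' - r ∈ (f : FI K) * M then 1 else 0 := fun r => by
    unfold ci
    split_ifs <;> rfl
  rw [Finset.sum_eq_single r₀]
  · rw [e1, if_pos h2, map_one, mul_one]
    unfold ci
    have h4 : x - r₀ ∈ (f : FI K) * M ↔ x - x' - 0 ∈ (f : FI K) * M := by
      rw [sub_zero]
      constructor
      · intro h
        have := fi_sub h h2
        rwa [sub_sub_sub_cancel_right] at this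
      · intro h
        have := fi_add h h2
        rwa [sub_add_sub_cancel] at this
    by_cases h5 : x - r₀ ∈ (f : FI K) * M
    · rw [if_pos h5, if_pos (h4.1 h5)]
    · rw [if_neg h5, if_neg fun h => h5 (h4.2 h)]
  · intro r hr hne
    rw [e1, if_neg, map_zero, mul_zero]
    intro h
    exact hne (h3 r ⟨hr, h⟩)
  · intro h
    exact absurd h1 h

omit [NumberField K] in
lemma ci_norm (f : Ideal (𝓞 K)) (M : FI K) (r x : K) : ‖ci K f M r x‖ ≤ 1 := by
  unfold ci
  split_ifs <;> simp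

end nf

theorem pf_QB (hPR : T_PR) (hGB : T_GB) (hCS : Pool.Agent.H29.TC.T_CS) (hEX : T_EX)
    (hCQ : T_CQ) (hDF : T_DF) (hTH : T_TH) (hYC : T_YC) (hDU : T_DU) (hFP : T_FP)
    (hRX : T_RX) : T_QB := by
  intro K _ _ S l g k hGK η hη M x₀ X₁ φ hM hGn hRep hφ z T b hT hb
  classical
  have hc : 0 < Real.cos φ := by
    have h1 := abs_lt.1 hφ
    exact Real.cos_pos_of_mem_Ioo ⟨by linarith [h1.1], h1.2⟩
  have hc1 : Real.cos φ ≤ 1 := Real.cos_le_one φ
  have hf1 : g * k ^ 2 ≠ ⊥ := mul_ne_zero hGK.g_ne (pow_ne_zero 2 hGK.k_ne)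
  have hf : fk l g k ≠ ⊥ := mul_ne_zero hGK.l_ne hf1
  have hfle : fk l g k ≤ g * k ^ 2 := Ideal.mul_le_right
  have hG1 : Gn (g * k ^ 2) M x₀ := (hCQ K (fk l g k) (fun _ => 0) M x₀ hf hM hGn).2.2 _ hfle
  set c : K → ℂ := cq (g * k ^ 2) η M x₀ with hcdef
  have hc_norm : ∀ x, ‖c x‖ ≤ 1 := fun x => cq_norm _ η hη.mc M x₀ x
  have hc_zero : c 0 = 0 := cq_zero hCQ hη.mc hf1 (f1_top hGK.k_top) hM hG1
  set A : ℝ := T * Real.sqrt (Nf K (fk l g k)) / cv K ((fk l g k : FI K) * M) with hA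
  have hNf : 0 < Nf K (fk l g k) := Nf_pos hf
  have hcvM : 0 < cv K M := cv_pos hDU hM
  have hA0 : 0 < A := by
    rw [hA, cv_mul]
    positivity
  set y : InfinitePlace K → ℝ := yc K (Real.log A) z with hy
  set n : ℝ := (Module.finrank ℚ K : ℝ) with hn
  obtain ⟨hG1', hG2, hG3⟩ := hGB K S M φ hM hφ y
  -- the function on `K`
  set a : K → ℂ := {x : K | x ∈ M}.indicator (fun x => c x * GZ K S φ y x) with ha
  have ha_mem : ∀ {x : K}, x ∈ M → a x = c x * GZ K S φ y x := fun {x} hx =>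
    Set.indicator_of_mem (s := {x : K | x ∈ M}) hx _
  have ha_not : ∀ {x : K}, x ∉ M → a x = 0 := fun {x} hx =>
    Set.indicator_of_notMem (s := {x : K | x ∈ M}) hx _
  have ha_sum : Summable fun x => ‖a x‖ := by
    have h1 : Summable ((fun x : K => ‖GZ K S φ y x‖) ∘ ((↑) : {x : K | x ∈ M} → K)) := hG2
    have h2 := summable_subtype_iff_indicator.1 h1
    refine Summable.of_nonneg_of_le (fun x => norm_nonneg (a x)) (fun x => ?_) h2
    by_cases hx : x ∈ M
    · rw [ha_mem hx, Set.indicator_of_mem (s := {x : K | x ∈ M}) hx, norm_mul]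
      exact mul_le_of_le_one_left (norm_nonneg _) (hc_norm x)
    · rw [ha_not hx, Set.indicator_of_notMem (s := {x : K | x ∈ M}) hx, norm_zero]
  -- the theta functions of the cosets
  have hW : ∀ r, ‖Wc K S (fk l g k) M (cr K (l * g) M c r) φ z T‖ =
      ‖∑' x, ci K (l * g) M r x * a x‖ := by
    intro r
    unfold Wc
    rw [← hA, ← hy, hG3, norm_mul]
    have h1 : ‖cexp (φ * I * S.card / 2)‖ = 1 := by
      have : (φ : ℂ) * I * (S.card : ℂ) / 2 = ((φ * S.card / 2 : ℝ) : ℂ) * I := by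
        push_cast
        ring
      rw [this, Complex.norm_exp_ofReal_mul_I]
    rw [h1, one_mul]
    congr 1
    have h2 := tsum_subtype {x : K | x ∈ M} (fun x => cr K (l * g) M c r x * GZ K S φ y x)
    refine Eq.trans h2 (tsum_congr fun x => ?_)
    by_cases hx : x ∈ M
    · rw [ha_mem hx, Set.indicator_of_mem (s := {x : K | x ∈ M}) hx]
      unfold cr
      ring
    · rw [ha_not hx, Set.indicator_of_notMem (s := {x : K | x ∈ M}) hx, mul_zero]
  -- the lattices
  have hlg : l * g ≠ ⊥ := mul_ne_zero hGK.l_ne hGK.g_ne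
  have hk2 : k ^ 2 ≠ ⊥ := pow_ne_zero 2 hGK.k_ne
  have hk2M : ((k ^ 2 : Ideal (𝓞 K)) : FI K) * M ≠ 0 := coe_mul_ne hk2 hM
  have hde : ∀ e ∈ dvs K k, e ≠ ⊥ := by
    intro e he h
    rw [hDF K k hGK.k_ne, h, le_bot_iff] at he
    exact hGK.k_ne he
  have hL : ∀ e ∈ dvs K k, (((l * g * e : Ideal (𝓞 K)) : FI K) * M) ≠ 0 := fun e he =>
    coe_mul_ne (mul_ne_zero hlg (hde e he)) hM
  set Θ : ℝ := th K (((k ^ 2 : Ideal (𝓞 K)) : FI K) * M)
    (fun v => y v + Real.log (4 * Real.cos φ)) with hΘ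
  have hΘ0 : 0 ≤ Θ := by
    rw [hΘ]
    unfold th
    exact tsum_nonneg fun x => (Real.exp_pos _).le
  set D : ℝ := 2 ^ (n / 2) * Real.cos φ ^ (-n) with hD
  have hD0 : 0 ≤ D := by positivity
  set Ce : Ideal (𝓞 K) → ℝ := fun e => (dvs K k).card * (Nf K k * Nf K e) * D * Θ with hCe
  have hCe0 : ∀ e, 0 ≤ Ce e := by
    intro e
    have h1 := Nf_nonneg (K := K) k
    have h2 := Nf_nonneg (K := K) e
    simp only [hCe]
    positivity
  set A0 : ℝ := Real.cos φ ^ (-n) * (th K M (fun v => y v + Real.log (Real.cos φ)) - 1) with hA0d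
  have hc4 : 0 < Real.cos φ / 4 := by positivity
  set th' : Ideal (𝓞 K) → ℝ := fun e => th K (((l * g * e : Ideal (𝓞 K)) : FI K) * M)
    (fun v => y v + Real.log (Real.cos φ / 4)) with hth'
  set w : K → ℝ := fun h => ∑ e ∈ dvs K k,
    Ce e * gE (((l * g * e : Ideal (𝓞 K)) : FI K) * M) (Real.cos φ / 4) y h +
      (if h = 0 then A0 - ∑ e ∈ dvs K k, Ce e else 0) with hw
  have hw_sum : HasSum w (∑ e ∈ dvs K k, Ce e * th' e + (A0 - ∑ e ∈ dvs K k, Ce e)) := by
    refine HasSum.add (hasSum_sum fun e he => ?_) (hasSum_ite_eq 0 _)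
    exact (gE_hasSum hTH (hL e he) hc4 y).mul_left _
  -- the bounds
  have hb0 : ‖∑' x, a (x + 0) * (starRingEnd ℂ) (a x)‖ ≤ A0 := by
    have h1 : HasSum (fun x : K => Real.cos φ ^ (-n) * (gE M (Real.cos φ) y x -
        (if x = 0 then (1 : ℝ) else 0))) A0 := by
      refine HasSum.mul_left _ (HasSum.sub (gE_hasSum hTH hM hc y) (hasSum_ite_eq 0 1))
    refine tsum_of_norm_bounded h1 fun x => ?_
    rw [add_zero, norm_mul, RCLike.norm_conj, ← sq]
    by_cases hx0 : x = 0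
    · rw [hx0, gE_zero, if_pos rfl, ha_mem M.zero_mem, hc_zero]
      simp
    · rw [if_neg hx0, sub_zero]
      by_cases hx : x ∈ M
      · rw [ha_mem hx, gE_mem _ _ hx, norm_mul, mul_pow]
        have h2 := hG1' x
        have h3 : ‖c x‖ ^ 2 ≤ 1 := pow_le_one₀ (norm_nonneg _) (hc_norm x)
        calc ‖c x‖ ^ 2 * ‖GZ K S φ y x‖ ^ 2 ≤ 1 * ‖GZ K S φ y x‖ ^ 2 :=
              mul_le_mul_of_nonneg_right h3 (by positivity)
          _ ≤ _ := by
              rw [one_mul]
              refine h2.trans (le_of_eq ?_)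
              congr 2
              ring
      · rw [ha_not hx, norm_zero]
        have h4 : 0 ≤ Real.cos φ ^ (-n) * gE M (Real.cos φ) y x :=
          mul_nonneg (Real.rpow_nonneg hc.le _) (gE_nonneg M (Real.cos φ) y x)
        simpa using h4
  have hbh : ∀ h : K, h ≠ 0 → h ∈ ((l * g : Ideal (𝓞 K)) : FI K) * M → ∃ e ∈ dvs K k,
      ‖∑' x, a (x + h) * (starRingEnd ℂ) (a x)‖ ≤
        Ce e * gE (((l * g * e : Ideal (𝓞 K)) : FI K) * M) (Real.cos φ / 4) y h := by
    intro h h0 hh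
    have hhg : h ∈ (g : FI K) * M := fi_mono Ideal.mul_le_right M hh
    have hhM : h ∈ M := fi_le _ M hh
    obtain ⟨e, he1, he2, he3, he4⟩ := hEX K g k hGK.g_ne hGK.k_ne M hM h hhg
    have hhe := he4 l hGK.cop hh
    have hed : e ∈ dvs K k := (hDF K k hGK.k_ne e).2 he1
    refine ⟨e, hed, ?_⟩
    have hGK' : GK ⊤ g k := ⟨top_ne_bot, hGK.g_ne, hGK.k_ne, hGK.k_top, hGK.rad,
      top_sup_eq _, hGK.odd⟩
    obtain ⟨hC1, hC2⟩ := hCS K g k hGK' η hη M x₀ e h hM hG1 he1 he2 he3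
    obtain ⟨X, hX, -⟩ := hRX K (k ^ 2) M hk2 hM
    have h1 := hPR K S (k ^ 2) M X (fun x => c (x + h) * (starRingEnd ℂ) (c x)) φ
      ((dvs K k).card * (Nf K k * Nf K e)) h hk2 hM hX hC1 hφ (hC2 X hX) y
    have h2 : ∑' x, a (x + h) * (starRingEnd ℂ) (a x) = ∑' x : {x : K // x ∈ M},
        (c (x + h) * (starRingEnd ℂ) (c x)) *
          (GZ K S φ y (x + h) * (starRingEnd ℂ) (GZ K S φ y x)) := by
      have h3 := tsum_subtype {x : K | x ∈ M} (fun x => (c (x + h) * (starRingEnd ℂ) (c x)) *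
          (GZ K S φ y (x + h) * (starRingEnd ℂ) (GZ K S φ y x)))
      refine Eq.trans (tsum_congr fun x => ?_) h3.symm
      by_cases hx : x ∈ M
      · rw [ha_mem hx, ha_mem (fi_add hx hhM), Set.indicator_of_mem (s := {x : K | x ∈ M}) hx,
          map_mul]
        ring
      · rw [ha_not hx, Set.indicator_of_notMem (s := {x : K | x ∈ M}) hx, map_zero, mul_zero]
    rw [h2, gE_mem _ _ hhe]
    refine h1.trans (le_of_eq ?_)
    simp only [hCe]
    rw [← hΘ, ← hD]
    have h3 : -Real.pi * (Real.cos φ / 4) * qK K y h =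
        -Real.pi * (Real.cos φ / 4 * qK K y h) := by ring
    rw [h3]
    ring
  have hbound : ∀ h, ‖ci K (l * g) M 0 h * ∑' x, a (x + h) * (starRingEnd ℂ) (a x)‖ ≤ w h := by
    intro h
    have hg0 : ∀ e ∈ dvs K k, 0 ≤ Ce e *
        gE (((l * g * e : Ideal (𝓞 K)) : FI K) * M) (Real.cos φ / 4) y h := fun e _ =>
      mul_nonneg (hCe0 e) (gE_nonneg _ _ _ _)
    rw [norm_mul]
    by_cases h0 : h = 0
    · have h1 : w h = A0 := by
        simp only [hw]
        rw [h0, if_pos rfl]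
        have : ∀ e ∈ dvs K k, Ce e *
            gE (((l * g * e : Ideal (𝓞 K)) : FI K) * M) (Real.cos φ / 4) y 0 = Ce e := fun e _ => by
          rw [gE_zero, mul_one]
        rw [Finset.sum_congr rfl this]
        ring
      rw [h1, h0]
      exact (mul_le_of_le_one_left (norm_nonneg _) (ci_norm _ _ _ _)).trans hb0
    · have h1 : w h = ∑ e ∈ dvs K k,
          Ce e * gE (((l * g * e : Ideal (𝓞 K)) : FI K) * M) (Real.cos φ / 4) y h := by
        simp only [hw]
        rw [if_neg h0, add_zero]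
      rw [h1]
      by_cases hh : h ∈ ((l * g : Ideal (𝓞 K)) : FI K) * M
      · obtain ⟨e, he, hle⟩ := hbh h h0 hh
        refine (mul_le_of_le_one_left (norm_nonneg _) (ci_norm _ _ _ _)).trans (hle.trans ?_)
        exact Finset.single_le_sum (f := fun e => Ce e *
          gE (((l * g * e : Ideal (𝓞 K)) : FI K) * M) (Real.cos φ / 4) y h) hg0 he
      · have h2 : ci K (l * g) M 0 h = 0 := by
          unfold ci
          rw [sub_zero, if_neg hh]
        rw [h2, norm_zero, zero_mul]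
        exact Finset.sum_nonneg hg0
  -- assembly
  have hmain : ∑ r ∈ X₁, ‖Wc K S (fk l g k) M (cr K (l * g) M c r) φ z T‖ ^ 2 ≤
      ∑ e ∈ dvs K k, Ce e * th' e + (A0 - ∑ e ∈ dvs K k, Ce e) := by
    rw [Finset.sum_congr rfl fun r _ => congrArg (· ^ 2) (hW r), ← hw_sum.tsum_eq]
    refine square_le a ha_sum X₁ (fun r x => ci K (l * g) M r x) (fun r x => ci_norm _ _ _ _)
      (fun h => ci K (l * g) M 0 h) (fun h => ci_norm _ _ _ _) ?_ w hw_sum.summable hbound
    intro x x' hx hx'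
    refine ci_sum hRep ?_
    by_contra hcon
    exact hx' (ha_not hcon)
  refine hmain.trans ?_
  have hn0 : 0 < n := by
    rw [hn]
    exact_mod_cast Module.finrank_pos
  have hn2 : 0 ≤ n / 2 := by positivity
  set s : ℝ := Real.sqrt (Nf K (fk l g k)) with hs
  have hs0 : 0 < s := Real.sqrt_pos.2 hNf
  have hss : Nf K (fk l g k) = s * s := (Real.mul_self_sqrt hNf.le).symm
  have hb0' : 0 < b := by
    rw [hb]
    positivity
  -- the parameter
  have hpar : ∀ (J : Ideal (𝓞 K)) (t : ℝ), A * t * cv K ((J : FI K) * M) =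
      T * t * (Nf K J / s) := by
    intro J t
    rw [hA, cv_mul, cv_mul, hss]
    field_simp
  have hparM : ∀ t : ℝ, A * t * cv K M = T * t * s⁻¹ := by
    intro t
    rw [hA, cv_mul, hss]
    field_simp
  -- first term
  have hFPM := (hFP K M hM).2.2.2.1 z
  have h1 : A0 ≤ Real.cos φ ^ (-n) * (FT K M z (T * b * s⁻¹) - 1) := by
    rw [hA0d]
    refine mul_le_mul_of_nonneg_left (sub_le_sub_right ?_ 1) (Real.rpow_nonneg hc.le _)
    rw [hy, FT_eq hYC hcvM hA0 hc z, hparM]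
    refine hFPM (Set.mem_Ioi.2 ?_) (Set.mem_Ioi.2 ?_) ?_
    · positivity
    · positivity
    · have h3 : b ≤ Real.cos φ ^ (n / 2) := by
        rw [hb]
        exact Real.rpow_le_rpow hc4.le (by linarith) hn2
      have h4 : (0 : ℝ) ≤ s⁻¹ := by positivity
      exact mul_le_mul_of_nonneg_right (mul_le_mul_of_nonneg_left h3 hT.le) h4
  -- the parameter rho
  have hNlg : 0 < Nf K (l * g) := Nf_pos hlg
  have hNk : 0 < Nf K k := Nf_pos hGK.k_ne
  set q : ℝ := Real.sqrt (Nf K (l * g)) with hq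
  have hq0 : 0 < q := Real.sqrt_pos.2 hNlg
  have hqq : Nf K (l * g) = q * q := (Real.mul_self_sqrt hNlg.le).symm
  have hsq : s = q * Nf K k := by
    rw [hs, hq]
    have : Nf K (fk l g k) = Nf K (l * g) * Nf K k ^ 2 := by
      rw [show fk l g k = l * g * k ^ 2 from (mul_assoc l g (k ^ 2)).symm, Nf_mul, Nf_pow]
    rw [this, Real.sqrt_mul hNlg.le, Real.sqrt_sq hNk.le]
  have hrho : rho K (l * g) k = Nf K k / q := rfl
  have hrho0 : 0 < rho K (l * g) k := by
    rw [hrho]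
    positivity
  -- second factor
  have h2 : Θ ≤ FT K (((k ^ 2 : Ideal (𝓞 K)) : FI K) * M) z (T * b * rho K (l * g) k) := by
    have hcv2 : 0 < cv K (((k ^ 2 : Ideal (𝓞 K)) : FI K) * M) := cv_pos hDU hk2M
    have h4c : 0 < 4 * Real.cos φ := by positivity
    rw [hΘ, hy, FT_eq hYC hcv2 hA0 h4c z, hpar]
    have h3 : Nf K (k ^ 2) / s = rho K (l * g) k := by
      rw [Nf_pow, hrho, hsq]
      field_simp
    rw [h3]
    refine (hFP K _ hk2M).2.2.2.1 z (Set.mem_Ioi.2 ?_) (Set.mem_Ioi.2 ?_) ?_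
    · positivity
    · positivity
    · have h3 : b ≤ (4 * Real.cos φ) ^ (n / 2) := by
        rw [hb]
        exact Real.rpow_le_rpow hc4.le (by linarith) hn2
      exact mul_le_mul_of_nonneg_right (mul_le_mul_of_nonneg_left h3 hT.le) hrho0.le
  have h3 : ∀ e ∈ dvs K k, th' e = FT K (((l * g * e : Ideal (𝓞 K)) : FI K) * M) z
      (T * b * (Nf K e / rho K (l * g) k)) := by
    intro e he
    have hcve : 0 < cv K (((l * g * e : Ideal (𝓞 K)) : FI K) * M) := cv_pos hDU (hL e he)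
    simp only [hth']
    rw [hy, FT_eq hYC hcve hA0 hc4 z, hpar]
    congr 1
    rw [← hb, Nf_mul, hrho, hsq, hqq]
    field_simp
  have h4 : ∀ e ∈ dvs K k, Ce e * (th' e - 1) ≤ D * ((dvs K k).card * Nf K k) * (Nf K e *
      ((FT K (((l * g * e : Ideal (𝓞 K)) : FI K) * M) z
          (T * b * (Nf K e / rho K (l * g) k)) - 1) *
          FT K (((k ^ 2 : Ideal (𝓞 K)) : FI K) * M) z (T * b * rho K (l * g) k))) := by
    intro e he
    rw [h3 e he]
    have hNe : 0 < Nf K e := Nf_pos (hde e he)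
    have h5 : 1 ≤ FT K (((l * g * e : Ideal (𝓞 K)) : FI K) * M) z
        (T * b * (Nf K e / rho K (l * g) k)) :=
      ((hFP K _ (hL e he)).2.2.1 z _ (by positivity)).1
    have h6 : 0 ≤ (dvs K k).card * (Nf K k * Nf K e) * D *
        (FT K (((l * g * e : Ideal (𝓞 K)) : FI K) * M) z
          (T * b * (Nf K e / rho K (l * g) k)) - 1) :=
      mul_nonneg (mul_nonneg (mul_nonneg (Nat.cast_nonneg _) (mul_nonneg hNk.le hNe.le)) hD0)
        (sub_nonneg.2 h5)
    have h8 := mul_le_mul_of_nonneg_left h2 h6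
    simp only [hCe]
    calc _ = (dvs K k).card * (Nf K k * Nf K e) * D *
        (FT K (((l * g * e : Ideal (𝓞 K)) : FI K) * M) z
          (T * b * (Nf K e / rho K (l * g) k)) - 1) * Θ := by ring
      _ ≤ _ := h8
      _ = _ := by ring
  have h5 : ∑ e ∈ dvs K k, Ce e * th' e + (A0 - ∑ e ∈ dvs K k, Ce e) =
      A0 + ∑ e ∈ dvs K k, Ce e * (th' e - 1) := by
    simp only [mul_sub, mul_one, Finset.sum_sub_distrib]
    ring
  rw [h5]
  refine add_le_add h1 ?_
  rw [Finset.mul_sum]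
  exact Finset.sum_le_sum h4

end Pool.Agent.H48.TC
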