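import Pool.Agent.H29.TC.Targets

/-!
# Module QB of the board thc_modules, part 1: opening the square
-/

set_option autoImplicit false

open Set Filter

namespace Pool.Agent.H48.TC

section opening

variable {G : Type} [AddCommGroup G]

/-- the change of variables `(h, y) ↦ (y + h, y)` -/
def shEq (G : Type) [AddCommGroup G] : G × G ≃ G × G where
  toFun p := (p.2 + p.1, p.2)
  invFun p := (p.1 - p.2, p.2)
  left_inv p := by simp
  right_inv p := by simp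

omit [AddCommGroup G] in
theorem mulS {a b : G → ℂ} (ha : Summable fun x => ‖a x‖) (hb : Summable fun x => ‖b x‖) :
    Summable (fun p : G × G => ‖a p.1‖ * ‖b p.2‖) := by
  have h1 : (0 : G → ℝ) ≤ fun x => ‖a x‖ := fun x => norm_nonneg (a x)
  have h2 : (0 : G → ℝ) ≤ fun x => ‖b x‖ := fun x => norm_nonneg (b x)
  have h3 := Summable.mul_of_nonneg ha hb h1 h2
  exact h3

/-- opening the square -/
theorem square_sum (a : G → ℂ) (ha : Summable fun x => ‖a x‖)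
    (X : Finset G) (ci : G → G → ℂ) (hci : ∀ r x, ‖ci r x‖ ≤ 1) (L : G → ℂ)
    (h : ∀ x x', a x ≠ 0 → a x' ≠ 0 →
      ∑ r ∈ X, ci r x * (starRingEnd ℂ) (ci r x') = L (x - x')) :
    ((∑ r ∈ X, ‖∑' x, ci r x * a x‖ ^ 2 : ℝ) : ℂ) =
      ∑' p : G × G, L p.1 * (a (p.2 + p.1) * (starRingEnd ℂ) (a p.2)) := by
  have ha2 : Summable (fun p : G × G => ‖a p.1‖ * ‖a p.2‖) := mulS ha ha
  have hs : ∀ r, Summable fun x => ‖ci r x * a x‖ := by
    intro r
    have h0 : ∀ x, ‖ci r x * a x‖ ≤ ‖a x‖ := fun x => by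
      rw [norm_mul]
      exact mul_le_of_le_one_left (norm_nonneg _) (hci r x)
    exact Summable.of_nonneg_of_le (fun x => norm_nonneg (ci r x * a x)) h0 ha
  have h1 : ∀ r, ((‖∑' x, ci r x * a x‖ ^ 2 : ℝ) : ℂ) =
      ∑' p : G × G, (ci r p.1 * a p.1) * (starRingEnd ℂ) (ci r p.2 * a p.2) := by
    intro r
    rw [← Complex.normSq_eq_norm_sq, ← Complex.mul_conj, Complex.conj_tsum]
    exact tsum_mul_tsum_of_summable_norm (hs r) (by simpa using hs r)
  push_cast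
  have h1' : ∀ r, ((‖∑' x, ci r x * a x‖ : ℝ) : ℂ) ^ 2 =
      ∑' p : G × G, (ci r p.1 * a p.1) * (starRingEnd ℂ) (ci r p.2 * a p.2) := by
    intro r
    rw [← h1 r]
    push_cast
    ring
  rw [Finset.sum_congr rfl fun r _ => h1' r]
  have hs2 : ∀ r, Summable fun p : G × G => (ci r p.1 * a p.1) * (starRingEnd ℂ) (ci r p.2 * a p.2) := by
    intro r
    have h0 : Summable fun p : G × G => ‖ci r p.1 * a p.1‖ * ‖ci r p.2 * a p.2‖ :=
      mulS (a := fun x => ci r x * a x) (b := fun x => ci r x * a x) (hs r) (hs r)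
    have h1 : ∀ p : G × G, ‖(ci r p.1 * a p.1) * (starRingEnd ℂ) (ci r p.2 * a p.2)‖ ≤
        ‖ci r p.1 * a p.1‖ * ‖ci r p.2 * a p.2‖ := fun p => by
      rw [norm_mul (ci r p.1 * a p.1), RCLike.norm_conj]
    exact Summable.of_norm_bounded h0 h1
  rw [← Summable.tsum_finsetSum fun r _ => hs2 r]
  rw [← Equiv.tsum_eq (shEq G)]
  refine tsum_congr fun p => ?_
  change ∑ r ∈ X, (ci r (p.2 + p.1) * a (p.2 + p.1)) * (starRingEnd ℂ) (ci r p.2 * a p.2) = _
  by_cases h2 : a (p.2 + p.1) = 0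
  · simp [h2]
  by_cases h3 : a p.2 = 0
  · simp [h3]
  have h4 := h _ _ h2 h3
  rw [add_sub_cancel_left] at h4
  rw [← h4, Finset.sum_mul]
  refine Finset.sum_congr rfl fun r _ => ?_
  rw [map_mul]
  ring

/-- the bound -/
theorem square_le (a : G → ℂ) (ha : Summable fun x => ‖a x‖)
    (X : Finset G) (ci : G → G → ℂ) (hci : ∀ r x, ‖ci r x‖ ≤ 1) (L : G → ℂ) (hL : ∀ h, ‖L h‖ ≤ 1)
    (h : ∀ x x', a x ≠ 0 → a x' ≠ 0 →
      ∑ r ∈ X, ci r x * (starRingEnd ℂ) (ci r x') = L (x - x'))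
    (w : G → ℝ) (hw : Summable w)
    (hb : ∀ h, ‖L h * ∑' x, a (x + h) * (starRingEnd ℂ) (a x)‖ ≤ w h) :
    ∑ r ∈ X, ‖∑' x, ci r x * a x‖ ^ 2 ≤ ∑' h, w h := by
  have ha2 : Summable (fun p : G × G => ‖a p.1‖ * ‖a p.2‖) := mulS ha ha
  have h1 := square_sum a ha X ci hci L h
  have ha3 : Summable (fun p : G × G => ‖a (p.2 + p.1)‖ * ‖a p.2‖) :=
    (shEq G).summable_iff.2 ha2
  have hs : Summable fun p : G × G => L p.1 * (a (p.2 + p.1) * (starRingEnd ℂ) (a p.2)) := by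
    have h0 : ∀ p : G × G, ‖L p.1 * (a (p.2 + p.1) * (starRingEnd ℂ) (a p.2))‖ ≤
        ‖a (p.2 + p.1)‖ * ‖a p.2‖ := fun p => by
      rw [norm_mul, norm_mul, RCLike.norm_conj]
      exact mul_le_of_le_one_left (mul_nonneg (norm_nonneg _) (norm_nonneg _)) (hL _)
    exact Summable.of_norm_bounded ha3 h0
  rw [hs.tsum_prod] at h1
  have h2 : ∀ h, ∑' x, L h * (a (x + h) * (starRingEnd ℂ) (a x)) =
      L h * ∑' x, a (x + h) * (starRingEnd ℂ) (a x) := fun h => tsum_mul_left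
  simp only [h2] at h1
  have h0 : 0 ≤ ∑ r ∈ X, ‖∑' x, ci r x * a x‖ ^ 2 := Finset.sum_nonneg fun _ _ => by positivity
  have h3 : ‖((∑ r ∈ X, ‖∑' x, ci r x * a x‖ ^ 2 : ℝ) : ℂ)‖ =
      ∑ r ∈ X, ‖∑' x, ci r x * a x‖ ^ 2 := by
    rw [Complex.norm_real, Real.norm_of_nonneg h0]
  rw [← h3, h1]
  exact tsum_of_norm_bounded hw.hasSum hb

end opening

end Pool.Agent.H48.TC
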