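import Pool.Agent.H48.TC.QBa

/-!
# Module QB of the board thc_modules, part 2: lemmas on theta functions and ideals
-/

set_option autoImplicit false

open NumberField NumberField.InfinitePlace NumberField.Units
  NumberField.Units.dirichletUnitTheorem MeasureTheory Set Filter Complex
open scoped nonZeroDivisors ENNReal

namespace Pool.Agent.H48.TC

open Pool.Agent.H25.HK Pool.Agent.H28.RC Pool.Agent.H23.LB Pool.Agent.H29.TC

section nf

variable {K : Type} [Field K] [NumberField K]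

lemma qK_add (y : InfinitePlace K → ℝ) (b : ℝ) (x : K) :
    qK K (fun v => y v + b) x = Real.exp b * qK K y x := by
  unfold qK
  rw [Finset.mul_sum]
  refine Finset.sum_congr rfl fun v _ => ?_
  rw [Real.exp_add]
  ring

lemma qK_zero (y : InfinitePlace K → ℝ) : qK K y 0 = 0 := by
  unfold qK
  refine Finset.sum_eq_zero fun v _ => ?_
  simp

/-- Gaussian on `M`, extended by zero -/
noncomputable def gE (M : FI K) (c : ℝ) (y : InfinitePlace K → ℝ) (x : K) : ℝ :=
  {x : K | x ∈ M}.indicator (fun x => Real.exp (-Real.pi * (c * qK K y x))) x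

lemma gE_nonneg (M : FI K) (c : ℝ) (y : InfinitePlace K → ℝ) (x : K) : 0 ≤ gE M c y x :=
  Set.indicator_nonneg (fun _ _ => (Real.exp_pos _).le) x

lemma gE_mem {M : FI K} (c : ℝ) (y : InfinitePlace K → ℝ) {x : K} (hx : x ∈ M) :
    gE M c y x = Real.exp (-Real.pi * (c * qK K y x)) := Set.indicator_of_mem (s := {x : K | x ∈ M}) hx _

lemma gE_zero (M : FI K) (c : ℝ) (y : InfinitePlace K → ℝ) : gE M c y 0 = 1 := by
  rw [gE_mem c y (M.zero_mem), qK_zero]
  simp

lemma gE_hasSum (hTH : T_TH) {M : FI K} (hM : M ≠ 0) {c : ℝ} (hc : 0 < c)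
    (y : InfinitePlace K → ℝ) : HasSum (gE M c y) (th K M (fun v => y v + Real.log c)) := by
  have h1 := ((hTH K M hM (fun v => y v + Real.log c)).1).hasSum
  have h2 : (fun x : {x : K // x ∈ M} => Real.exp (-Real.pi * qK K (fun v => y v + Real.log c) x)) =
      (fun x : K => Real.exp (-Real.pi * (c * qK K y x))) ∘ ((↑) : {x : K | x ∈ M} → K) := by
    funext x
    simp only [Function.comp_apply]
    rw [qK_add, Real.exp_log hc]
  rw [h2] at h1
  have h3 : ∑' x : {x : K // x ∈ M}, ((fun x : K => Real.exp (-Real.pi * (c * qK K y x))) ∘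
      ((↑) : {x : K | x ∈ M} → K)) x = th K M (fun v => y v + Real.log c) := by
    rw [← h2]
    rfl
  rw [h3] at h1
  exact hasSum_subtype_iff_indicator.1 h1

lemma fi_mono {I J : Ideal (𝓞 K)} (h : I ≤ J) (M : FI K) {x : K} (hx : x ∈ (I : FI K) * M) :
    x ∈ (J : FI K) * M :=
  mul_le_mul_left ((FractionalIdeal.coeIdeal_le_coeIdeal K).2 h) M hx

lemma fi_le (I : Ideal (𝓞 K)) (M : FI K) {x : K} (hx : x ∈ (I : FI K) * M) : x ∈ M := by
  have h1 := fi_mono (le_top : I ≤ ⊤) M hx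
  rwa [FractionalIdeal.coeIdeal_top, one_mul] at h1

omit [NumberField K] in
lemma fi_add {M : FI K} {x y : K} (hx : x ∈ M) (hy : y ∈ M) : x + y ∈ M :=
  (M : Submodule (𝓞 K) K).add_mem hx hy

omit [NumberField K] in
lemma fi_sub {M : FI K} {x y : K} (hx : x ∈ M) (hy : y ∈ M) : x - y ∈ M :=
  (M : Submodule (𝓞 K) K).sub_mem hx hy

lemma coe_mul_ne {I : Ideal (𝓞 K)} {M : FI K} (hI : I ≠ ⊥) (hM : M ≠ 0) : (I : FI K) * M ≠ 0 :=
  mul_ne_zero (FractionalIdeal.coeIdeal_ne_zero.2 hI) hM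

lemma Nf_pos {I : Ideal (𝓞 K)} (hI : I ≠ ⊥) : 0 < Nf K I := by
  unfold Nf
  have : Ideal.absNorm I ≠ 0 := fun h => hI (Ideal.absNorm_eq_zero_iff.1 h)
  positivity

lemma Nf_nonneg (I : Ideal (𝓞 K)) : 0 ≤ Nf K I := by
  unfold Nf
  positivity

lemma Nf_mul (I J : Ideal (𝓞 K)) : Nf K (I * J) = Nf K I * Nf K J := by
  unfold Nf
  rw [map_mul]
  push_cast
  rfl

lemma Nf_pow (I : Ideal (𝓞 K)) (n : ℕ) : Nf K (I ^ n) = Nf K I ^ n := by
  unfold Nf
  rw [map_pow]
  push_cast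
  rfl

lemma cv_mul (I : Ideal (𝓞 K)) (M : FI K) : cv K ((I : FI K) * M) = Nf K I * cv K M := by
  unfold cv Nf
  rw [map_mul, FractionalIdeal.coeIdeal_absNorm]
  push_cast
  ring

lemma cv_pos (hDU : T_DU) {M : FI K} (hM : M ≠ 0) : 0 < cv K M := by
  unfold cv
  have h1 := (hDU K M hM).2.2.2.1
  have h2 : (0 : ℝ) < |(discr K : ℝ)| := by
    rw [abs_pos]
    exact_mod_cast NumberField.discr_ne_zero K
  positivity

lemma FT_eq (hYC : T_YC) {M : FI K} (hM : 0 < cv K M) {A c : ℝ} (hA : 0 < A) (hc : 0 < c)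
    (z : logSpace K) : th K M (fun v => yc K (Real.log A) z v + Real.log c) =
      FT K M z (A * c ^ ((Module.finrank ℚ K : ℝ) / 2) * cv K M) := by
  unfold FT
  rw [mul_div_cancel_right₀ _ hM.ne']
  congr 1
  funext v
  have hn : (0 : ℝ) < Module.finrank ℚ K := by
    exact_mod_cast Module.finrank_pos
  have hcp : 0 < c ^ ((Module.finrank ℚ K : ℝ) / 2) := Real.rpow_pos_of_pos hc _
  rw [(hYC K).2.2.2.1 (Real.log A) z v,
    (hYC K).2.2.2.1 (Real.log (A * c ^ ((Module.finrank ℚ K : ℝ) / 2))) z v,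
    Real.log_mul hA.ne' hcp.ne', Real.log_rpow hc]
  field_simp
  ring

end nf

end Pool.Agent.H48.TC
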